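import Pool.Agent.W528.HA.Stm

set_option autoImplicit false

/-! # HA-EM: embeddings of the algebraic numbers with a given value -/

namespace Pool.Agent.W346.HA.EM

open Polynomial

theorem main : Pool.Agent.W528.HA.EM := by
  intro E C _ _ _ _ _ _ N μ ω hN hμ hω
  have hint : IsIntegral ℚ μ := (hμ.isIntegral hN).tower_top
  have hμK : μ ∈ algebraicClosure ℚ E := mem_algebraicClosure_iff'.2 hint
  have halg : Algebra.IsAlgebraic ℚ (algebraicClosure ℚ E) := algebraicClosure.isAlgebraic ℚ E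
  have hspl : ∀ s : algebraicClosure ℚ E, IsIntegral ℚ s ∧
      ((minpoly ℚ s).map (algebraMap ℚ C)).Splits := fun s =>
    ⟨(halg.isAlgebraic s).isIntegral, IsAlgClosed.splits _⟩
  have h1 : minpoly ℚ (⟨μ, hμK⟩ : algebraicClosure ℚ E) = cyclotomic N ℚ := by
    rw [cyclotomic_eq_minpoly_rat hμ hN]
    exact (minpoly.algebraMap_eq (A := ℚ) (B := algebraicClosure ℚ E) (B' := E)
      (algebraMap (algebraicClosure ℚ E) E).injective ⟨μ, hμK⟩).symm
  have h2 : aeval ω (minpoly ℚ (⟨μ, hμK⟩ : algebraicClosure ℚ E)) = 0 := by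
    rw [h1]
    have h3 := hω.isRoot_cyclotomic hN
    rw [← map_cyclotomic N (algebraMap ℚ C)] at h3
    rw [aeval_def, ← eval_map]
    exact h3
  obtain ⟨φ, hφ⟩ := IntermediateField.exists_algHom_of_splits_of_aeval hspl h2
  refine ⟨φ.toRingHom, fun x hx => ?_⟩
  have : x = ⟨μ, hμK⟩ := Subtype.ext hx
  rw [this]
  exact hφ

end Pool.Agent.W346.HA.EM
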