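import Pool.Agent.W528.HA.Stm

set_option autoImplicit false
set_option linter.unusedSectionVars false

/-! # HA-NG: absolute values of Gauss sums -/

namespace Pool.Agent.W346.HA.NG

open Finset Polynomial Pool.Agent.W528.HA

variable {c N : ℕ} [hc : Fact c.Prime] {L : Type} [Field L] [Fintype L] [hL : CharP L c]

theorem N_dvd (hN : N ∣ c - 1) : N ∣ Fintype.card L - 1 := by
  obtain ⟨f, hf⟩ := FiniteField.card L c
  rw [hf.2]
  exact hN.trans (by simpa using Nat.sub_dvd_pow_sub_pow c 1 (f : ℕ))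

theorem card_gt : 1 < Fintype.card L := Fintype.one_lt_card

theorem exists_W (hN : N ∣ c - 1) (hN2 : 2 ≤ N) {T : MulChar L (PadicAlgCl c)}
    (hT : IsT c N L T) (y : L) : ∃ w : ℤ_[c],
    algebraMap ℚ_[c] (PadicAlgCl c) (w : ℚ_[c]) = T y ∧
    ZMod.castHom (dvd_refl c) L (PadicInt.toZMod w) = y ^ ((Fintype.card L - 1) / N) := by
  by_cases hy : y = 0
  · refine ⟨0, ?_, ?_⟩
    · rw [hy, MulChar.map_zero]
      simp
    · have h1 : 0 < (Fintype.card L - 1) / N :=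
        Nat.div_pos (Nat.le_of_dvd (by have := card_gt (L := L); omega) (N_dvd (L := L) hN))
          (by omega)
      rw [hy, zero_pow h1.ne', map_zero, map_zero]
  · exact hT.2 y hy

theorem pow_ne (hN : N ∣ c - 1) (hN2 : 2 ≤ N) {T : MulChar L (PadicAlgCl c)}
    (hT : IsT c N L T) {b : ℕ} (hb1 : 1 ≤ b) (hb : b < N) : T ^ b ≠ 1 := by
  intro h
  obtain ⟨g, hg⟩ := IsCyclic.exists_generator (α := Lˣ)
  obtain ⟨w, hw1, hw2⟩ := exists_W hN hN2 hT (g : L)
  have h1 : T (g : L) ^ b = 1 := by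
    rw [← MulChar.pow_apply_coe, h, MulChar.one_apply_coe]
  rw [← hw1, ← map_pow] at h1
  have h2 : ((w ^ b : ℤ_[c]) : ℚ_[c]) = ((1 : ℤ_[c]) : ℚ_[c]) := by
    rw [PadicInt.coe_pow, PadicInt.coe_one]
    exact (algebraMap ℚ_[c] (PadicAlgCl c)).injective (by rw [h1, map_one])
  have h3 : w ^ b = 1 := Subtype.ext h2
  have h4 := congrArg (fun x => (ZMod.castHom (dvd_refl c) L) (PadicInt.toZMod x)) h3
  simp only [map_pow, map_one] at h4
  rw [hw2, ← pow_mul] at h4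
  have h5 : g ^ ((Fintype.card L - 1) / N * b) = 1 := by
    apply Units.ext
    rw [Units.val_pow_eq_pow_val, Units.val_one]
    exact h4
  have h6 := orderOf_dvd_of_pow_eq_one h5
  rw [orderOf_eq_card_of_forall_mem_zpowers hg, Nat.card_units, Nat.card_eq_fintype_card] at h6
  obtain ⟨u, hu⟩ := N_dvd (L := L) hN
  have hu0 : 0 < u := by
    rcases Nat.eq_zero_or_pos u with h0 | h0
    · rw [h0, mul_zero] at hu
      have := card_gt (L := L)
      omega
    · exact h0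
  rw [hu, Nat.mul_div_cancel_left u (by omega), mul_comm N u] at h6
  have h7 := Nat.le_of_dvd hb1 (Nat.dvd_of_mul_dvd_mul_left hu0 h6)
  omega

theorem inv_pow_apply {T : MulChar L (PadicAlgCl c)} (hT : T ^ N = 1) {b : ℕ} (hb : b < N)
    (y : L) : (T ^ b)⁻¹ y = T y ^ (N - b) := by
  have h1 : (T ^ b)⁻¹ = T ^ (N - b) := by
    rw [inv_eq_iff_mul_eq_one, ← pow_add, Nat.add_sub_cancel' hb.le, hT]
  rw [h1, MulChar.pow_apply' _ (by omega)]

theorem jac_norm (hJ : JU) (hN : N ∣ c - 1) (hN2 : 2 ≤ N) {T : MulChar L (PadicAlgCl c)}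
    (hT : IsT c N L T) {b : ℕ} (hb1 : 1 ≤ b) (hb : b + 1 < N) :
    ‖jacobiSum T⁻¹ (T ^ b)⁻¹‖ = 1 := by
  choose W hW1 hW2 using exists_W hN hN2 hT
  set J : ℤ_[c] := ∑ x : L, W x ^ (N - 1) * W (1 - x) ^ (N - b) with hJdef
  have h1 : jacobiSum T⁻¹ (T ^ b)⁻¹ = algebraMap ℚ_[c] (PadicAlgCl c) (J : ℚ_[c]) := by
    unfold jacobiSum
    have e : ((J : ℤ_[c]) : ℚ_[c]) = ∑ x : L, (W x : ℚ_[c]) ^ (N - 1) *
        (W (1 - x) : ℚ_[c]) ^ (N - b) := by
      rw [hJdef]
      refine (map_sum PadicInt.Coe.ringHom (fun x => W x ^ (N - 1) * W (1 - x) ^ (N - b))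
        Finset.univ).trans (Finset.sum_congr rfl fun x _ => ?_)
      rw [map_mul, map_pow, map_pow]
      rfl
    rw [e, map_sum]
    refine Finset.sum_congr rfl fun x _ => ?_
    rw [map_mul, map_pow, map_pow, hW1, hW1, inv_pow_apply hT.1 (by omega)]
    congr 1
    have := inv_pow_apply (b := 1) hT.1 (by omega) x
    rwa [pow_one] at this
  have h2 : ZMod.castHom (dvd_refl c) L (PadicInt.toZMod J) ≠ 0 := by
    rw [hJdef]
    simp only [map_sum, map_mul, map_pow, hW2, ← pow_mul]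
    obtain ⟨u, hu⟩ := N_dvd (L := L) hN
    have key := hJ c N L hN b hb1 hb
    rw [hu, Nat.mul_div_cancel_left u (by omega)] at key ⊢
    have e1 : u * (N - 1) = N * u - u := by
      rw [Nat.mul_sub, mul_one, mul_comm]
    have e2 : u * (N - b) = N * u - b * u := by
      rw [Nat.mul_sub, mul_comm u N, mul_comm u b]
    rw [e1, e2]
    exact key
  have h3 : J ∉ IsLocalRing.maximalIdeal ℤ_[c] := by
    rw [← PadicInt.ker_toZMod, RingHom.mem_ker]
    intro h0
    exact h2 (by rw [h0, map_zero])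
  have h4 : IsUnit J := by
    rw [IsLocalRing.mem_maximalIdeal, mem_nonunits_iff, not_not] at h3
    exact h3
  rw [h1, PadicAlgCl.norm_extends, ← PadicInt.norm_def]
  exact PadicInt.isUnit_iff.1 h4

theorem main : JU → NG := by
  intro hJ c N _ L _ _ _ hN hN2 T hT ψ hψ b hb1 hb
  have hne : ∀ b : ℕ, 1 ≤ b → b < N → T ^ b ≠ 1 := fun b h1 h2 => pow_ne hN hN2 hT h1 h2
  have hpow : ∀ b : ℕ, 1 ≤ b → b < N → ‖gaussSum (T ^ b)⁻¹ ψ‖ = ‖gaussSum T⁻¹ ψ‖ ^ b := by
    intro b hb1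
    induction b, hb1 using Nat.le_induction with
    | base => intro _; rw [pow_one, pow_one]
    | succ b hb1 ih =>
      intro hb
      have h1 : T⁻¹ * (T ^ b)⁻¹ = (T ^ (b + 1))⁻¹ := by
        rw [pow_succ, mul_inv, mul_comm]
      have h2 : T⁻¹ * (T ^ b)⁻¹ ≠ 1 := by
        rw [h1]
        intro h
        exact hne (b + 1) (by omega) hb (inv_eq_one.1 h)
      have h3 := congrArg norm (jacobiSum_mul_nontrivial h2 ψ)
      rw [norm_mul, norm_mul, h1, jac_norm hJ hN hN2 hT hb1 hb, mul_one, ih (by omega)] at h3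
      rw [h3, pow_succ, mul_comm]
  refine ⟨hne b hb1 hb, hpow b hb1 hb, ?_⟩
  have hT1 : T ≠ 1 := by
    have := hne 1 le_rfl (by omega)
    rwa [pow_one] at this
  have h1 : (T ^ (N - 1))⁻¹ = T := by
    rw [inv_eq_iff_mul_eq_one, ← pow_succ, Nat.sub_add_cancel (by omega), hT.1]
  have h2 := hpow (N - 1) (by omega) (by omega)
  rw [h1] at h2
  have h3 := congrArg norm (gaussSum_mul_gaussSum_eq_card hT1 hψ)
  rw [norm_mul, h2] at h3
  have h4 := congrArg norm (mul_gaussSum_inv_eq_gaussSum T⁻¹ ψ)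
  have h5 : ‖T⁻¹ (-1)‖ = 1 := by
    have e : T⁻¹ (-1) * T⁻¹ (-1) = 1 := by
      rw [← map_mul, neg_mul_neg, one_mul, map_one]
    have e2 := congrArg norm e
    rw [norm_mul, norm_one] at e2
    nlinarith [norm_nonneg (T⁻¹ (-1))]
  rw [norm_mul, h5, one_mul] at h4
  rw [h4, ← pow_succ, Nat.sub_add_cancel (by omega)] at h3
  exact h3

end Pool.Agent.W346.HA.NG
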